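import Pool.Agent.TH117.PO.Defs
import Pool.Agent.TH170.GS.Main

/-!
# The numerical form of the standard conjecture of Hodge type: definitions
-/

set_option autoImplicit false

namespace Pool.Agent.H8NH

open NumberField Module Pool.Agent.H204R3.CM Pool.Agent.H977R3.CM Pool.Agent.W495.TA
  Pool.Agent.W547.KB Pool.Agent.W547.HR Pool.Agent.TH117.PO Pool.Agent.TH170

/-- The class `z` is primitive modulo numerical equivalence, for the polarization `E` given by `α`: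
the product of `z` with `E ^ (m + 1)` has intersection number zero with all cycles `y` of the
complementary degree. -/
def IsNumPrim {p : ℕ} [Fact p.Prime] {ν : PadicAlgCl p ≃+* ℂ} (Ω : Type) [Field Ω] [CharZero Ω]
    (C : (Y : RedAV p ν) → (κ : Type) → ((TM Ω Y) [⋀^κ]→ₗ[Ω] Ω) → Prop) {Y : RedAV p ν}
    (α : Y.X.H1) {κ : Type} [Fintype κ] [DecidableEq κ] (m : ℕ)
    (z : (TM Ω Y) [⋀^κ]→ₗ[Ω] Ω) : Prop :=
  ∀ (κ' : Type) [Fintype κ'] [DecidableEq κ'] (y : (TM Ω Y) [⋀^κ']→ₗ[Ω] Ω), C Y κ' y →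
    Fintype.card κ + 2 * (m + 1) + Fintype.card κ' = finrank ℚ Y.X.H1 →
      ∀ v : κ' ⊕ (κ ⊕ (Fin (m + 1) × Fin 2)) → Y.X.H1,
        altSum (times (res y)
          (times (res z) (powE (castE Ω (riemannForm Y.X α)) (m + 1)))) v = 0

/-- The numerical standard conjecture of Hodge type for `Y`, for all cycle classes `C`, polarizations
and codimensions: a class of a cycle `z` of codimension `r` which is primitive modulo numerical
equivalence and not numerically equivalent to zero satisfies `(-1)^r z · z · E^m > 0`,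
`dim Y = 2 r + m`; and a cycle of codimension `r ≤ dim Y` which is numerically equivalent to zero is
homologically equivalent to zero. -/
def NumHodge {p : ℕ} [Fact p.Prime] {ν : PadicAlgCl p ≃+* ℂ} (Y : RedAV p ν) : Prop :=
  ∀ (Ω : Type) [Field Ω] [CharZero Ω] [IsAlgClosed Ω]
    (C : (Y : RedAV p ν) → (κ : Type) → ((TM Ω Y) [⋀^κ]→ₗ[Ω] Ω) → Prop), IsCycleSystem Ω C →
    IsRosatiPositive Ω C → AreTate Ω C →
      (∀ α : Y.X.H1, IsPolar Y.X α → ∀ r m : ℕ, 2 * (2 * r + m) = finrank ℚ Y.X.H1 →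
        ∀ z : (TM Ω Y) [⋀^Fin r × Fin 2]→ₗ[Ω] Ω, C Y (Fin r × Fin 2) z → ¬ IsNumTrivial Ω C z →
          IsNumPrim Ω C α m z → IsPosClass α m z) ∧
      (∀ (r : ℕ) (z : (TM Ω Y) [⋀^Fin r × Fin 2]→ₗ[Ω] Ω), C Y (Fin r × Fin 2) z →
        IsNumTrivial Ω C z → z = 0)

/-- `NumHodge` for all abelian varieties `Y` with the slope types `Φ`. -/
def Holds {p : ℕ} [Fact p.Prime] (ν : PadicAlgCl p ≃+* ℂ) {I : Type} (K : I → Type)
    [∀ i, Field (K i)] (M : ∀ i, (K i →+* ℂ) → ℤ) (Φ : ∀ i, Set (K i →+* ℂ)) : Prop :=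
  ∀ Y : RedAV p ν, GS.OfTypes K M Φ Y → NumHodge Y

/-- The exceptional families of CM types. -/
def exceptionalFamilies {p : ℕ} [Fact p.Prime] (ν : PadicAlgCl p ≃+* ℂ) {I : Type} (K : I → Type)
    [∀ i, Field (K i)] (M : ∀ i, (K i →+* ℂ) → ℤ) : Set (∀ i, Set (K i →+* ℂ)) :=
  {Φ | (∀ i, IsCMType (Φ i)) ∧ ¬ Holds ν K M Φ}

end Pool.Agent.H8NH
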