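import Pool.Agent.H8NH.Defs
import Pool.Agent.TH117.PO.Full

/-!
# The numerical form of the standard conjecture of Hodge type: proofs
-/

set_option autoImplicit false
set_option linter.unusedVariables false

namespace Pool.Agent.H8NH

open NumberField Module Pool.Agent.H204R3.CM Pool.Agent.H977R3.CM Pool.Agent.W495.TA
  Pool.Agent.W547.KB Pool.Agent.W547.LD Pool.Agent.W547.HR Pool.Agent.TH117.PO
  Pool.Agent.TH117.BL Pool.Agent.W976.TA Equiv
open scoped TensorProduct

variable {p : ℕ} [Fact p.Prime] {ν : PadicAlgCl p ≃+* ℂ} {Ω : Type} [Field Ω] [CharZero Ω]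
  {C : (Y : RedAV p ν) → (κ : Type) → ((TM Ω Y) [⋀^κ]→ₗ[Ω] Ω) → Prop}

/-- exchange of the factors -/
theorem altSum_swap {P Q H R : Type} [Fintype P] [DecidableEq P] [Fintype Q] [DecidableEq Q]
    [CommRing R] (g : (P → H) → R) (h : (Q → H) → R) (v : P ⊕ Q → H) :
    altSum (times g h) v = altSum (times h g) (fun q => v (Equiv.sumComm Q P q)) := by
  rw [← altSum_reindex (Equiv.sumComm Q P) (times h g) v]
  congr 1
  funext w
  unfold times
  exact mul_comm _ _

/-- the product of a cycle class with a power of the polarization is a cycle class -/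
theorem exists_product [IsAlgClosed Ω] (hC : IsCycleSystem Ω C) {Y : RedAV p ν} {α : Y.X.H1}
    (hα : IsPolar Y.X α) (k : ℕ) {κ : Type} [Fintype κ] [DecidableEq κ]
    {z : (TM Ω Y) [⋀^κ]→ₗ[Ω] Ω} (hz : C Y κ z) :
    ∃ w : (TM Ω Y) [⋀^κ ⊕ (Fin k × Fin 2)]→ₗ[Ω] Ω, C Y _ w ∧
      ∀ v, res w v = altSum (times (res z) (powE (castE Ω (riemannForm Y.X α)) k)) v := by
  classical
  have hne : Nonempty (Y.X.prod (single (Pool.Agent.TH117.BL.kp p))).I := ⟨Sum.inr ()⟩
  obtain ⟨L, _, _, _, _, j, hj⟩ := exists_cm (Y.X.prod (single (Pool.Agent.TH117.BL.kp p)))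
  have hB : Big Y.X j := fun i ψ => hj (Sum.inl i) ψ
  let jO : L →+* Ω := ((IsAlgClosed.lift : L →ₐ[ℚ] Ω) : L →+* Ω)
  obtain ⟨θ, hθ⟩ := exists_theta (jO := jO) j hα
  have hθr := res_theta j hB hθ
  have hCθ : C Y (Fin 2) θ := theta_mem hC hα hθr
  have hθ1 : ∀ x y : Y.X.H1, θ ![(1 : Ω) ⊗ₜ[ℚ] x, (1 : Ω) ⊗ₜ[ℚ] y] =
      castE Ω (riemannForm Y.X α) x y := by
    intro x y
    rw [castE, ← hθr]
    unfold res
    congr 1
    funext k
    fin_cases k <;> rfl
  have hpow : ∀ (k : ℕ) (v : Fin k × Fin 2 → Y.X.H1),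
      powE (fun x y => θ ![x, y]) k (fun i => (1 : Ω) ⊗ₜ[ℚ] v i) =
        powE (castE Ω (riemannForm Y.X α)) k v := by
    intro k v
    unfold powE
    exact Finset.prod_congr rfl fun i _ => hθ1 _ _
  obtain ⟨f, a, ha, hf, hfv⟩ := power_mem hC hCθ k
  have hresf : ∀ u : Fin k × Fin 2 → Y.X.H1, res f u =
      (a : Ω) * altSum (powE (castE Ω (riemannForm Y.X α)) k) u := by
    intro u
    unfold res
    rw [hfv]
    congr 1
    unfold altSum
    refine Finset.sum_congr rfl fun σ _ => ?_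
    congr 1
    exact hpow k fun i => u (σ i)
  set N : ℚ := a * (Fintype.card (Perm (Fin k × Fin 2)) : ℚ) with hN
  have hN0 : N ≠ 0 := mul_ne_zero ha (Nat.cast_ne_zero.2 Fintype.card_ne_zero)
  have hcup : C Y (κ ⊕ (Fin k × Fin 2)) (cupO z f) := hC.cup z f hz hf _ fun v => cupO_apply z f v
  refine ⟨((N⁻¹ : ℚ) : Ω) • cupO z f, hC.smul _ _ hcup, fun v => ?_⟩
  have h1 : res (((N⁻¹ : ℚ) : Ω) • cupO z f) v = ((N⁻¹ : ℚ) : Ω) * res (cupO z f) v := rfl
  have h2 : res (cupO z f) v = altSum (times (res z) (res f)) v := by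
    unfold res
    rw [cupO_apply]
    rfl
  have h3 : (times (res z) (res f) : _ → Ω) = fun w =>
      (a : Ω) * times (res z) (altSum (powE (castE Ω (riemannForm Y.X α)) k)) w := by
    funext w
    unfold times
    rw [hresf]
    ring
  rw [h1, h2, h3, altSum_const_mul, altSum_absorb]
  have h4 : ((N⁻¹ : ℚ) : Ω) * (N : Ω) = 1 := by
    rw [← Rat.cast_mul, inv_mul_cancel₀ hN0, Rat.cast_one]
  have h5 : ((N : ℚ) : Ω) = (a : Ω) * (Fintype.card (Perm (Fin k × Fin 2)) : Ω) := by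
    rw [hN]
    push_cast
    ring
  rw [← mul_assoc, ← mul_assoc, mul_assoc ((N⁻¹ : ℚ) : Ω) (a : Ω), ← h5, h4, one_mul]

/-- Primitive modulo numerical equivalence implies primitive, if all Tate classes are in `Alg`. -/
theorem prim_of_numPrim [IsAlgClosed Ω] (hC : IsCycleSystem Ω C) (hT : AreTate Ω C)
    {Y : RedAV p ν}
    (h : ∀ (s r : ℕ) (f : (TM Ω Y) [⋀^Fin (2 * r)]→ₗ[Ω] Ω), 0 < s → IsTateClass Ω Y s r f →
      Alg Ω Y (Fin (2 * r)) f) {α : Y.X.H1} (hα : IsPolar Y.X α) {r m : ℕ}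
    {z : (TM Ω Y) [⋀^Fin r × Fin 2]→ₗ[Ω] Ω} (hz : C Y (Fin r × Fin 2) z)
    (hn : IsNumPrim Ω C α m z) : IsPrim α m z := by
  classical
  obtain ⟨w, hw, hwv⟩ := exists_product hC hα (m + 1) hz
  let e : (Fin r × Fin 2) ⊕ (Fin (m + 1) × Fin 2) ≃ Fin (r + (m + 1)) × Fin 2 :=
    (Equiv.sumProdDistrib (Fin r) (Fin (m + 1)) (Fin 2)).symm.trans
      (Equiv.prodCongr finSumFinEquiv (Equiv.refl _))
  have h1 : Alg Ω Y _ (w.domDomCongr e) :=
    alg_of_tate hC hT (fun s f hs hf => h s _ f hs hf) (hC.reindex e w hw)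
  have h2 := Alg.reindex e.symm _ h1
  have h3 : (w.domDomCongr e).domDomCongr e.symm = w := by
    refine AlternatingMap.ext fun v => ?_
    change w _ = w v
    congr 1
    funext k
    simp
  rw [h3] at h2
  have h4 : IsNumTrivial Ω C w := by
    intro κ' _ _ y hy hcard v
    rw [altSum_swap]
    have h5 : (times (res y) (res w) : _ → Ω) = times (res y)
        (altSum (times (res z) (powE (castE Ω (riemannForm Y.X α)) (m + 1)))) := by
      funext u
      unfold times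
      rw [hwv]
      rfl
    rw [h5, altSum_absorb, hn κ' y hy (by
      rw [← hcard]
      simp only [Fintype.card_sum, Fintype.card_prod, Fintype.card_fin]
      ring), mul_zero]
  have h5 := nondegenerate hC h2 h4
  intro v
  rw [← hwv v, h5]
  rfl

/-- All properties, if all Tate classes on `Y` are in `Alg`. -/
theorem numHodge_of_tate {Y : RedAV p ν}
    (h : ∀ (Ω : Type) [Field Ω] [CharZero Ω] [IsAlgClosed Ω] (s r : ℕ)
      (f : (TM Ω Y) [⋀^Fin (2 * r)]→ₗ[Ω] Ω), 0 < s → IsTateClass Ω Y s r f →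
        Alg Ω Y (Fin (2 * r)) f) : NumHodge Y := by
  intro Ω _ _ _ C hC hR hT
  refine ⟨fun α hα r m hrm z hz hz0 hn => ?_, fun r z hz hn => ?_⟩
  · have hA : Alg Ω Y _ z := alg_of_tate hC hT (fun s f hs hf => h Ω s _ f hs hf) hz
    refine positive hC hR hα hrm hz hA ?_ (prim_of_numPrim hC hT (fun s r f hs hf =>
      h Ω s r f hs hf) hα hz hn)
    rintro rfl
    apply hz0
    intro κ' _ _ y hy hcard v
    unfold altSum times res
    simp
  · exact nondegenerate hC (alg_of_tate hC hT (fun s f hs hf => h Ω s _ f hs hf) hz) hn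

/-- All properties, if the relations between the Frobenius eigenvalues are elementary. -/
theorem numHodge_of_elementary {Y : RedAV p ν}
    (h : ∃ Z : RedAV p ν, HasElementaryRelations Z ∧ IsPowersTimesSupersingular Z Y) :
    NumHodge Y := by
  obtain ⟨Z, h1, h2⟩ := h
  exact numHodge_of_tate fun Ω _ _ _ s r f hs hf => elementary Z h1 Ω Y h2 s r hs f hf

end Pool.Agent.H8NH
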